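import Pool.Agent.Y16.AF.StmB
import Pool.Agent.Y352.AF.Asym

/-! Assembly of the convergence of the one loop coefficient. -/

set_option autoImplicit false

namespace Pool.Agent.Y445.AF

open Pool.Agent.Y16.AF Finset Filter
open scoped Topology

theorem sum_FF (L : ℕ) [NeZero L] :
    ∑ k ∈ nz L, FF L (ang k 0) (en k) =
      (∑ t ∈ range L, ((t : ℝ) + 1 / 2) ^ 2 * EN L t) / (L : ℝ) ^ 4 +
      (∑ t ∈ range L, (t : ℝ) ^ 2 * ED L t) / (L : ℝ) ^ 4 +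
      (∑ k ∈ nz L, 2 * Real.sin (ang k 0) ^ 2 * VV L (en k)) / (L : ℝ) ^ 4 -
      (∑ k ∈ nz L, FY L (ang k 0) (en k)) / (L : ℝ) ^ 4 +
      (∑ k ∈ nz L, FW L (en k)) / (L : ℝ) ^ 4 := by
  have hN : (∑ t ∈ range L, ((t : ℝ) + 1 / 2) ^ 2 * EN L t) =
      ∑ k ∈ nz L, ∑ t ∈ range L, ((t : ℝ) + 1 / 2) ^ 2 * (2 * Real.cos (ang k 0) *
        GN L (en k) t t - 4 * Real.sin (ang k 0) ^ 2 * ∑ s ∈ range L, GN L (en k) t s ^ 2) := by
    rw [sum_comm]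
    refine sum_congr rfl fun t _ => ?_
    unfold EN
    rw [mul_sum]
  have hD : (∑ t ∈ range L, (t : ℝ) ^ 2 * ED L t) =
      ∑ k ∈ nz L, ∑ t ∈ range L, (t : ℝ) ^ 2 * (2 * Real.cos (ang k 0) *
        GD L (en k) t t - 4 * Real.sin (ang k 0) ^ 2 * ∑ s ∈ range L, GD L (en k) t s ^ 2) := by
    rw [sum_comm]
    refine sum_congr rfl fun t _ => ?_
    unfold ED
    rw [mul_sum]
  rw [hN, hD, ← add_div, ← add_div, ← sub_div, ← add_div, ← sum_add_distrib, ← sum_add_distrib,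
    ← sum_sub_distrib, ← sum_add_distrib, sum_div]
  refine sum_congr rfl fun k _ => ?_
  unfold FF
  rw [Pool.Agent.Y352.AF.FX_eq]
  rfl

theorem af_asyl : S_ASYL := by
  rintro ⟨x1, h1⟩ ⟨x2, h2⟩ ⟨x3, h3⟩ ⟨x4, h4⟩ ⟨x5, h5⟩
  refine ⟨x5 + x4 + x1 - x2 + x3, ?_⟩
  refine ((((h5.add h4).add h1).sub h2).add h3).congr fun L => ?_
  rw [sum_FF (L + 2)]
  ring

end Pool.Agent.Y445.AF
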